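import Pool.Agent.Work.MP_0d2ef4_co.HC.Final

/-!
# Rayless graphs with highly connected blocks are better-quasi-ordered under minors

`Red s m G k S` says that the graph induced by `S` is reduced in `k` rounds to finite highly
connected graphs. `k = 0`: every component `C` is finite and is not separated by fewer than `s |C|`
vertices (small components can be arbitrary, as `s` may vanish there). `k + 1`: from every block at
most `m` vertices can be deleted such that the rest satisfies the condition for `k`. For `k = 1` and
`m = 0` all blocks `B` are finite and not separated by fewer than `s |B|` vertices; in general blocks
can be infinite. The sizes and the tree-width of the blocks and the number of components after the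
deletions are not bounded.

Proof: labelled minors; a function `K n` such that a finite graph with at least `K n` vertices that
is not separated by fewer than `K n` vertices has a complete minor rooted at any `n` vertices
(Mader's topological complete graphs, Menger's theorem, rerouting); arrays of numbers with bounded
growth on tails are bounded on an infinite set (Borel sets of infinite subsets of `ℕ` are Ramsey);
deletion of vertices and components with labels; minimal bad arrays of rooted labelled rayless
graphs for the blocks.
-/

namespace Pool.Agent.Results.MP_0d2ef4_co.HighlyConnectedBlocks

open Pool.MP_0d2ef4_co Set Filter

universe u

/-- Let `s n → ∞`. The rayless graphs that are reduced in `k` rounds to finite graphs not separated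
by fewer than `s |C|` vertices are better-quasi-ordered under minors (first part, for Borel maps `c`
from sets of natural numbers to natural numbers; `X \ {sInf X}` is `X` without its least element),
in particular well-quasi-ordered (second part, the case `c X = sInf X`). -/
theorem result (s : ℕ → ℕ) (hs : Tendsto s atTop atTop) (m k : ℕ) (V : ℕ → Type u)
    (G : ∀ n, SimpleGraph (V n)) (hG : ∀ n, Rayless (G n) ∧ Red s m (G n) k univ) :
    (∀ c : Set ℕ → ℕ, Measurable c →
      ∃ X : Set ℕ, X.Infinite ∧ IsMinor (G (c X)) (G (c (X \ {sInf X})))) ∧
    ∃ i j, i < j ∧ IsMinor (G i) (G j) :=
  hc_holds s hs m k V G hG

end Pool.Agent.Results.MP_0d2ef4_co.HighlyConnectedBlocks
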