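import Pool.Agent.Work.MP_0d2ef4_co.WQ.Final

/-!
# Rayless graphs with tame blocks are better-quasi-ordered under minors

For every `m` the class `InClass m` consists of the rayless graphs (of any cardinality, connected or
not) in which every set of vertices that induces a two-connected subgraph has a coloured
decomposition with `m` colours or becomes free of induced paths on four vertices after the deletion
of at most `m` vertices. Each of these classes is better-quasi-ordered, in particular
well-quasi-ordered, under the minor relation. Already for `m = 0` (every block is a cograph, for
instance a complete graph) the tree-width is unbounded.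

Proof: Borel sets of infinite subsets of `ℕ` are Ramsey (ultrafilter trees); minimal bad arrays
(recursion of length `ω₁`); transfinite sequences and families (Nash-Williams); coloured
decompositions with labels; domination in rooted rayless graphs instead of the block structure.
-/

namespace Pool.Agent.Results.MP_0d2ef4_co.TameBlocks

open Pool.MP_0d2ef4_co

universe u

/-- Rayless graphs with tame blocks are better-quasi-ordered under minors (first part, for Borel
maps `c` from sets of natural numbers to natural numbers; `X \ {sInf X}` is `X` without its least
element), in particular well-quasi-ordered (second part, the case `c X = sInf X`). -/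
theorem result (m : ℕ) (V : ℕ → Type u) (G : ∀ n, SimpleGraph (V n))
    (hG : ∀ n, InClass m (G n)) :
    (∀ c : Set ℕ → ℕ, Measurable c →
      ∃ X : Set ℕ, X.Infinite ∧ IsMinor (G (c X)) (G (c (X \ {sInf X})))) ∧
    ∃ i j, i < j ∧ IsMinor (G i) (G j) :=
  ⟨fun c hc => class_bqo m V G hG c hc, class_wqo m V G hG⟩

end Pool.Agent.Results.MP_0d2ef4_co.TameBlocks
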